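import Pool.Agent.Helper75.TE.Cube

/-!
# MP_a58584_gt, Q2: non-metrizable t-extral spaces contain the Tychonoff cube of weight `ω₁`
-/

set_option autoImplicit false

open Set Topology

namespace Pool.Agent.Results.MP_a58584_gt.TychonoffCube

/-- `C_p(X)`: the continuous real functions on `X` with the topology of pointwise convergence. -/
abbrev Cp (X : Type) [TopologicalSpace X] : Type := {f : X → ℝ // Continuous f}

/-- The subspace `Y` of `Z` is t-embedded in `Z`: there is a continuous extender
`φ : C_p(Y) → C_p(Z)`, that is, a continuous map with `φ(f)|_Y = f` for all `f`. -/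
def TEmbedded {Z : Type} [TopologicalSpace Z] (Y : Set Z) : Prop :=
  ∃ φ : Cp Y → Cp Z, Continuous φ ∧ ∀ (f : Cp Y) (y : Y), (φ f).1 y = f.1 y

/-- `X` is t-extral: whenever `X` is (homeomorphic to) a closed subspace `Y` of a Tychonoff space
`Z`, this subspace is t-embedded in `Z`. -/
def TExtral (X : Type) [TopologicalSpace X] : Prop :=
  ∀ (Z : Type) [TopologicalSpace Z] [T35Space Z] (Y : Set Z), IsClosed Y →
    Nonempty (X ≃ₜ Y) → TEmbedded Y

/-- Every non-metrizable t-extral space contains a copy of the Tychonoff cube `[0,1]^ω₁`. -/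
theorem result (X : Type) [TopologicalSpace X] [T35Space X] (hX : TExtral X)
    (hm : ¬ TopologicalSpace.MetrizableSpace X) (A : Type)
    (hA : Cardinal.mk A = Cardinal.aleph 1) :
    ∃ h : (A → unitInterval) → X, IsEmbedding h := by
  have hX' : Pool.Agent.H.MP_a58584.TExtral X := by
    intro Z _ _ e he
    obtain ⟨φ, h1, h2⟩ := hX Z (range e) he.isClosed_range ⟨he.isEmbedding.toHomeomorph⟩
    refine ⟨fun f => φ ⟨fun y => f.1 (he.isEmbedding.toHomeomorph.symm y),
      f.2.comp he.isEmbedding.toHomeomorph.symm.continuous⟩, ?_, fun f x => ?_⟩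
    · refine h1.comp (Continuous.subtype_mk (continuous_pi fun y => ?_) _)
      exact (continuous_apply (he.isEmbedding.toHomeomorph.symm y)).comp continuous_subtype_val
    · have h3 := h2 ⟨fun y => f.1 (he.isEmbedding.toHomeomorph.symm y),
        f.2.comp he.isEmbedding.toHomeomorph.symm.continuous⟩ (he.isEmbedding.toHomeomorph x)
      refine h3.trans ?_
      show f.1 (he.isEmbedding.toHomeomorph.symm (he.isEmbedding.toHomeomorph x)) = f.1 x
      rw [Homeomorph.symm_apply_apply]
  obtain ⟨h, hh⟩ := Pool.Agent.Helper75.TE.extral_emb_cube hX' hm A hA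
  exact ⟨h, hh.isEmbedding⟩

end Pool.Agent.Results.MP_a58584_gt.TychonoffCube
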